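import Pool.Agent.helper67.TSC.Spec

/-!
# Project tsc:, module RHK3 (helper48)
-/

set_option autoImplicit false

open Finset

noncomputable section

namespace Pool.Agent.TSC

open Finset Pool.Agent.EP

theorem RHK3_prime (a : ℕ) : (r0 a).Prime := by
  unfold r0
  split_ifs <;> norm_num

theorem RHK3 (hNRS : NRS_stmt) : RHK3_stmt := by
  intro a y k n w ha hkp hk hsp hxb hw
  have hr0 := (hNRS a y k n hkp hk).2 w hw
  have hwmem := hw
  simp only [ws, Finset.mem_filter, Finset.mem_range] at hw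
  have hk24 : k % 24 = 1 := by omega
  obtain ⟨p₁, p₂, hp₁, hp₂, hy₁, hy₂, -, -, hprod⟩ := hsp
  have hrpos : 0 < r0 a := (RHK3_prime a).pos
  have hppos : 0 < r0 a * p₁ * p₂ := Nat.mul_pos (Nat.mul_pos hrpos hp₁.pos) hp₂.pos
  obtain ⟨j, hj⟩ : ∃ j, j = k * 2 ^ a - 3 * w ^ 2 := ⟨_, rfl⟩
  obtain ⟨m, hm⟩ : ∃ m, m = 24 * n + 3 - 2 ^ a := ⟨_, rfl⟩
  have hmprod : m = r0 a * p₁ * p₂ := by omega
  have hA := ID_A a ha
  have hw24 := ID_w w hw.2.1
  have hkA : k * 2 ^ a % 24 = 2 ^ a % 24 := by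
    rw [Nat.mul_mod, hk24]
    norm_num
  have hnp : ∀ p : ℕ, p.Prime → y < p → p ∣ m → ¬ p ∣ j := by
    intro p hp hyp hpm hpj
    apply hxb
    refine ⟨p, hp, hyp, ?_, w, hwmem, ?_⟩
    · rw [← hm]; exact hpm
    · rw [← hj]; exact hpj
  have hnp₁ : ¬ p₁ ∣ j := hnp p₁ hp₁ hy₁ (by
    rw [hmprod]
    exact Dvd.dvd.mul_right (Dvd.intro_left _ rfl) _)
  have hnp₂ : ¬ p₂ ∣ j := hnp p₂ hp₂ hy₂ (by
    rw [hmprod]
    exact Dvd.intro_left _ rfl)
  rw [← hj] at hr0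
  have hc₀ : Nat.Coprime (r0 a) j := (Nat.Prime.coprime_iff_not_dvd (RHK3_prime a)).mpr hr0
  have hc₁ : Nat.Coprime p₁ j := (Nat.Prime.coprime_iff_not_dvd hp₁).mpr hnp₁
  have hc₂ : Nat.Coprime p₂ j := (Nat.Prime.coprime_iff_not_dvd hp₂).mpr hnp₂
  have hgcd : Nat.gcd j m = 1 := by
    rw [hmprod, Nat.Coprime.gcd_mul_right_cancel_right _ hc₂,
      Nat.Coprime.gcd_mul_right_cancel_right _ hc₁]
    exact hc₀.symm
  rw [← hj, ← hm]
  have hj0 : 0 < j := by omega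
  have hm0 : 0 < m := by omega
  have hj24 : (j % 24 = 5 ∧ m % 24 = 19) ∨ (j % 24 = 13 ∧ m % 24 = 11) := by omega
  have hjm : (j * m) % 24 = 23 := by
    rw [Nat.mul_mod]
    rcases hj24 with ⟨h1, h2⟩ | ⟨h1, h2⟩ <;> rw [h1, h2]
  have hset : j.divisors.filter (fun d : ℕ => (d : ℤ) ∣ (m : ℤ)) = {1} := by
    ext d
    simp only [Finset.mem_filter, Nat.mem_divisors, Int.natCast_dvd_natCast,
      Finset.mem_singleton]
    constructor
    · rintro ⟨⟨h1, _⟩, h2⟩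
      have h3 := Nat.dvd_gcd h1 h2
      rw [hgcd] at h3
      exact Nat.dvd_one.mp h3
    · rintro rfl
      exact ⟨⟨one_dvd _, hj0.ne'⟩, one_dvd _⟩
  constructor
  · unfold JG
    rw [hset, Finset.sum_singleton]
    have e2 : ((j : ℤ) * (m : ℤ) / ((1 : ℕ) : ℤ) ^ 2) = ((j * m : ℕ) : ℤ) := by
      rw [Nat.cast_one, one_pow, Int.ediv_one, Nat.cast_mul]
    rw [e2]
    unfold ac
    rw [if_pos]
    · congr 1
    · constructor
      · omega
      · omega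
  · omega

end Pool.Agent.TSC
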